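import Pool.Agent.U404.CP.Low
import Pool.Agent.U403.Dick.Upp

/-!
# The proportion of the patterns of `k` consecutive primes in an arbitrary set of shifts

Maynard and Pintz proved that a positive proportion `π_k` of all `k`-element subsets `H` of any large finite set
of integers are patterns of CONSECUTIVE primes: for infinitely many `n` the numbers `n + h`, `h ∈ H`, are prime and
there is no other prime between them. The constant of the proof is of the size `exp (- C k ^ 2)`. Here it is
improved to `(c / (k log k)) ^ k`, for every `c < exp (- γ) / (40 e)` and all `k ≥ k₀(c)`, uniformly in residue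
classes; a proportion greater than `(C / log k) ^ k`, `C > exp (- γ)`, is impossible for the sets `{1, …, n}`.

Proof. For each prime `p ≤ T = 20 k (k + 2)` the shifts of one residue class modulo `p` are removed; by the third
theorem of Mertens the proportion `(exp (- γ) / 2 + o (1)) / log k` remains. If the increasing `T`-tuples of
remaining shifts without a pattern of `k` consecutive primes had positive density, then (Erdős) a product
`A_1 < … < A_T` of `T` large sets would consist of such tuples. By the sieve of Maynard and Tao in the form of the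
starting library (`Pool.Agent.TH779.Ord.exact_few`) there is an exact pattern of primes in a subset of
`A_1 ∪ … ∪ A_T` for which the number `a` of the sets `A_g` which are hit once and the number `b` of those which are
hit more than once satisfy `a ≥ k (b + 1)`. So some `k` consecutive primes of this pattern lie in `k` different
sets, which are hit once: a contradiction. Double counting gives the proportion `(1 - o (1)) / (T choose k)` of the
subsets with `k` elements of the set of the remaining shifts.
-/

set_option autoImplicit false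

namespace Pool.Agent.Results.MP_3ec731_nt.ConsecutiveProportion

open Filter

/-- the numbers `n + h`, `h ∈ H`, are prime and no other number between the smallest and the largest of them is
prime -/
def ConsecutivePrimes (n : ℕ) (H : Finset ℕ) : Prop :=
  (∀ h ∈ H, (n + h).Prime) ∧ ∀ y : ℕ, (∃ h ∈ H, h ≤ y) → (∃ h ∈ H, y ≤ h) → (n + y).Prime → y ∈ H

/-- `H` is the pattern of consecutive primes after infinitely many `n` in the class of `a` modulo `q` -/
def Realised (q a : ℕ) (H : Finset ℕ) : Prop := {n : ℕ | n ≡ a [MOD q] ∧ ConsecutivePrimes n H}.Infinite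

open Classical in
/-- **The proportion of the patterns of consecutive primes.** Let `0 ≤ c < exp (- γ) / (40 e)` and `C > exp (- γ)`,
where `γ` is Euler's constant. For all `k ≥ k₀(c, C)` there is `n₀` such that

1. for all `q ≥ 1` and all `a` prime to `q`, every set `F` of at least `n₀` natural numbers which are divisible by
   `q` has at least `(c / (k log k)) ^ k * (|F| choose k)` subsets `H` with `k` elements which are
   `Realised q a`;
2. for `n ≥ n₀` at most `(C / log k) ^ k * (n choose k)` subsets of `{1, …, n}` with `k` elements are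
   `Realised 1 0`. -/
theorem result (c C : ℝ) (hc0 : 0 ≤ c) (hc : c < Real.exp (-Real.eulerMascheroniConstant) / (40 * Real.exp 1))
    (hC : Real.exp (-Real.eulerMascheroniConstant) < C) : ∃ k₀ : ℕ, ∀ k : ℕ, k₀ ≤ k → ∃ n₀ : ℕ,
    (∀ q a : ℕ, 1 ≤ q → Nat.Coprime a q → ∀ F : Finset ℕ, (∀ h ∈ F, q ∣ h) → n₀ ≤ F.card →
      (c / (k * Real.log k)) ^ k * (F.card.choose k : ℝ) ≤
        ({H : Finset ℕ | H ⊆ F ∧ H.card = k ∧ Realised q a H}.ncard : ℝ)) ∧
    ∀ n : ℕ, n₀ ≤ n → ({H : Finset ℕ | H ⊆ Finset.Icc 1 n ∧ H.card = k ∧ Realised 1 0 H}.ncard : ℝ) ≤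
      (C / Real.log k) ^ k * (n.choose k : ℝ) := by
  obtain ⟨k₁, h1⟩ := Pool.Agent.U404.CP.lower hc0 hc
  obtain ⟨k₂, h2⟩ := Pool.Agent.U403.Dick.upper hC
  refine ⟨max k₁ k₂, fun k hk => ?_⟩
  obtain ⟨n₁, h1⟩ := h1 k ((le_max_left _ _).trans hk)
  obtain ⟨n₂, h2⟩ := h2 k ((le_max_right _ _).trans hk)
  refine ⟨max n₁ n₂, fun q a hq haq F hF hn => ?_, fun n hn => ?_⟩
  · -- divide by `q`
    obtain ⟨F', hF'⟩ : ∃ F' : Finset ℕ, F' = F.image (fun h => h / q) := ⟨_, rfl⟩
    have hFF : F'.image (fun h => q * h) = F := by
      rw [hF', Finset.image_image]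
      ext x
      rw [Finset.mem_image]
      constructor
      · rintro ⟨y, hy, rfl⟩
        simp only [Function.comp]
        rw [Nat.mul_div_cancel' (hF y hy)]
        exact hy
      · intro hx
        exact ⟨x, hx, Nat.mul_div_cancel' (hF x hx)⟩
    have hinj : Function.Injective (fun h : ℕ => q * h) := fun x y hxy => Nat.eq_of_mul_eq_mul_left hq hxy
    have hcard : F'.card = F.card := by
      rw [← hFF, Finset.card_image_of_injective _ hinj]
    have h3 := h1 q a hq haq F' (by rw [hcard]; exact (le_max_left _ _).trans hn)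
    rw [hcard] at h3
    refine h3.trans ?_
    rw [Nat.cast_le, ← Set.ncard_coe_finset]
    refine Set.ncard_le_ncard_of_injOn (fun I : Finset ℕ => I.image (fun h => q * h)) ?_ ?_ ?_
    · intro I hI
      rw [Finset.mem_coe, Finset.mem_filter, Finset.mem_powersetCard] at hI
      obtain ⟨⟨hI1, hI2⟩, hI3⟩ := hI
      refine ⟨?_, ?_, ?_⟩
      · rw [← hFF]
        exact Finset.image_subset_image hI1
      · rw [Finset.card_image_of_injective _ hinj, hI2]
      · refine hI3.mono ?_
        rintro m ⟨hm1, hm2⟩
        refine ⟨hm1, fun h hh => ?_, fun y hy1 hy2 hy3 => ?_⟩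
        · obtain ⟨x, hx, rfl⟩ := Finset.mem_image.1 hh
          exact (hm2 (q * x) ⟨x, hx, le_rfl⟩ ⟨x, hx, le_rfl⟩).2 ⟨x, hx, rfl⟩
        · obtain ⟨h', hh', hy'⟩ := hy1
          obtain ⟨h'', hh'', hy''⟩ := hy2
          obtain ⟨x', hx', rfl⟩ := Finset.mem_image.1 hh'
          obtain ⟨x'', hx'', rfl⟩ := Finset.mem_image.1 hh''
          obtain ⟨x, hx, rfl⟩ := (hm2 y ⟨x', hx', hy'⟩ ⟨x'', hx'', hy''⟩).1 hy3
          exact Finset.mem_image_of_mem _ hx
    · intro I _ J _ hIJ
      exact Finset.image_injective hinj hIJ
    · apply Set.Finite.subset (Finset.finite_toSet F.powerset)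
      intro I hI
      rw [Finset.mem_coe, Finset.mem_powerset]
      exact hI.1
  · refine h2 n ((le_max_right _ _).trans hn) _ fun y => ?_
    refine le_trans ?_ (Pool.Agent.U403.Dick.adm_count n k y)
    rw [← Set.ncard_coe_finset]
    apply Set.ncard_le_ncard _ (Finset.finite_toSet _)
    rintro I ⟨hI1, hI2, hI3⟩
    rw [Finset.mem_coe, Finset.mem_filter, Finset.mem_powersetCard]
    refine ⟨⟨hI1, hI2⟩, fun p hp => ?_⟩
    obtain ⟨m, hm, hpm⟩ := hI3.exists_gt p
    refine ⟨m, fun b hb hd => ?_⟩
    have h3 := hm.2.1 b hb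
    have h4 := (Nat.prime_dvd_prime_iff_eq hp h3).1 hd
    omega

end Pool.Agent.Results.MP_3ec731_nt.ConsecutiveProportion
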