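import Pool.Agent.U163.SV.Follow

/-!
# MP_3ec731_nt: prescribed patterns of consecutive primes following prescribed almost primes

For every `m` there are `K` and `c > 0`, depending on `m` only, such that for all polynomials `f`, `g` (of
bounded degree, with coefficients up to any power of `N`, with the necessary local condition) at least the
proportion `c` of the `m`-element subsets `H` of every set `T` of at least `K` multiples of a certain `W` has
the following property: for at least `N / (log N) ^ B` integers `x` between `N` and `2 N` the next primes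
after `x` are exactly the numbers `x + h`, `h ∈ H`, and the numbers `f x` and `g (x + h)`, `h ∈ H`, are almost
primes.
-/

set_option autoImplicit false

namespace Pool.Agent.Results.MP_3ec731_nt.PatternsAfterAlmostPrimes

open Filter Polynomial

/-- `n ≠ 0` has at most `r` prime factors, counted with multiplicity, and all of them are at least `w`. -/
def AlmostPrime (r : ℕ) (w : ℝ) (n : ℤ) : Prop :=
  n ≠ 0 ∧ n.natAbs.primeFactorsList.length ≤ r ∧ ∀ p : ℕ, p.Prime → (p : ℤ) ∣ n → w ≤ p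

/-- The integers `x ≡ a` modulo `q` with `N < x`, `x + max H ≤ 2 N`, such that all numbers `x + h`, `h ∈ H`,
are primes, no other number in `(x, x + max H]` is prime, and `f x` and all `g (x + h)`, `h ∈ H`, are almost
primes. -/
def places (f g : ℤ[X]) (N q a r : ℕ) (δ : ℝ) (H : Finset ℕ) : Set ℕ :=
  {x | N < x ∧ x + H.sup id ≤ 2 * N ∧ x ≡ a [MOD q] ∧ (∀ h ∈ H, (x + h).Prime) ∧
    (∀ y, 1 ≤ y → y ≤ H.sup id → (x + y).Prime → y ∈ H) ∧
    AlmostPrime r ((N : ℝ) ^ δ) (f.eval (x : ℤ)) ∧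
    ∀ h ∈ H, AlmostPrime r ((N : ℝ) ^ δ) (g.eval ((x + h : ℕ) : ℤ))}

theorem places_finite (f g : ℤ[X]) (N q a r : ℕ) (δ : ℝ) (H : Finset ℕ) :
    (places f g N q a r δ H).Finite :=
  (Set.finite_Iic (2 * N)).subset fun x hx => by
    have h1 : x + H.sup id ≤ 2 * N := hx.2.1
    rw [Set.mem_Iic]
    omega

/-- **A positive proportion of the patterns of consecutive primes follows numbers with prescribed almost prime
values.** The number `2 ^ (141557760 m)` of the places and the proportion depend on `m` only. -/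
theorem result (m : ℕ) (hm : 1 ≤ m) (D q : ℕ) (hq : Squarefree q) :
    ∃ (W B : ℕ) (δ : ℝ), 0 < W ∧ 0 < δ ∧ ∀ A : ℕ, ∃ r : ℕ, ∀ T : Finset ℕ,
      2 ^ (141557760 * m) ≤ T.card → (∀ t ∈ T, W ∣ t) →
      ∀ᶠ N : ℕ in atTop, ∀ f g : ℤ[X], f.natDegree ≤ D → g.natDegree ≤ D →
      (∀ i, |f.coeff i| ≤ (N : ℤ) ^ A) → (∀ i, |g.coeff i| ≤ (N : ℤ) ^ A) →
      (∀ p : ℕ, p.Prime → ∃ n : ℤ, ¬ (p : ℤ) ∣ n * f.eval n * g.eval n) →
      (∀ z : ℤ, z < 0 → -(2 * ((T.sup id : ℕ) : ℤ)) ≤ z → f.eval z ≠ 0) →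
      (∀ z : ℤ, z ≠ 0 → |z| ≤ ((T.sup id : ℕ) : ℤ) → g.eval z ≠ 0) →
      ∀ a : ℕ, (∀ p : ℕ, p.Prime → p ∣ q → ¬ (p : ℤ) ∣ (a : ℤ) * f.eval (a : ℤ) * g.eval (a : ℤ)) →
      T.card.choose m ≤ (2 ^ (141557760 * m)).choose m * {H : Finset ℕ | H ⊆ T ∧ H.card = m ∧
        (N : ℝ) / Real.log N ^ B ≤ (places f g N q a r δ H).ncard}.ncard := by
  classical
  obtain ⟨W, B, δ, hW, hδ, hmain⟩ := Pool.Agent.U163.SV.stringsV m hm D q hq
  obtain ⟨K, hK⟩ : ∃ K, K = 2 ^ (141557760 * m) := ⟨_, rfl⟩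
  have hmK : m ≤ K := by
    rw [hK]
    exact (Nat.lt_two_pow_self (n := m)).le.trans (Nat.pow_le_pow_right (by norm_num) (by omega))
  rw [← hK] at hmain ⊢
  refine ⟨W, B, δ, hW, hδ, fun A => ?_⟩
  obtain ⟨r, hr⟩ := hmain A
  refine ⟨r, fun T hT hTW => ?_⟩
  have h2 := (Filter.eventually_all_finset (l := atTop) (T.powerset.filter (fun S => S.card = K))).2
    fun S hS => hr S (Finset.mem_filter.1 hS).2
      fun t ht => hTW t (Finset.mem_powerset.1 (Finset.mem_filter.1 hS).1 ht)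
  filter_upwards [h2, eventually_gt_atTop 3] with N hN hN3
  intro f g hfD hgD hfc hgc hadm hfz hgz a ha
  have hlog : 0 < Real.log N := Real.log_pos (by exact_mod_cast (by omega : 1 < N))
  refine Pool.Agent.Helper32K9.Str.proportion hm hmK T hT
    (fun H => ∃ S ⊆ T, H ⊆ S ∧ ∃ U : Finset ℕ, (N : ℝ) ≤ Real.log N ^ B * U.card ∧
        ∀ x ∈ U, N < x ∧ x + S.sup id ≤ 2 * N ∧ (∀ h ∈ H, (x + h).Prime) ∧
          (∀ y, 1 ≤ y → y ≤ S.sup id → (x + y).Prime → y ∈ H) ∧ x ≡ a [MOD q] ∧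
          Pool.Agent.R498.MP.APZ r ((N : ℝ) ^ δ) (f.eval (x : ℤ)) ∧
          ∀ h ∈ S, Pool.Agent.R498.MP.APZ r ((N : ℝ) ^ δ) (g.eval ((x + h : ℕ) : ℤ)))
    (fun H => (N : ℝ) / Real.log N ^ B ≤ (places f g N q a r δ H).ncard) ?_ ?_
  · intro S hS hSK
    have hsup : S.sup id ≤ T.sup id := Finset.sup_mono hS
    obtain ⟨H, h3, h4, h5⟩ := hN S (Finset.mem_filter.2 ⟨Finset.mem_powerset.2 hS, hSK⟩) f g hfD
      hgD hfc hgc hadm (fun z hz0 hz => hfz z hz0 (by omega))
      (fun z hz0 hz => hgz z hz0 (hz.trans (by exact_mod_cast hsup))) a ha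
    exact ⟨H, h3, h4, S, hS, h3, h5⟩
  · rintro H H' ⟨S, hS, hHS, U, h4, h5⟩ hH' hcard hy
    have h7 : H'.sup id ≤ S.sup id := Finset.sup_mono (hH'.trans hHS)
    have hsub : (U : Set ℕ) ⊆ places f g N q a r δ H' := by
      intro x hx
      obtain ⟨g1, g2, g3, g4, g5, g6, g7⟩ := h5 x (Finset.mem_coe.1 hx)
      exact ⟨g1, by omega, g5, fun h hh => g3 h (hH' hh),
        fun y hy1 hys hp => hy y (g4 y hy1 (by omega) hp) hys, g6, fun h hh => g7 h (hHS (hH' hh))⟩
    have h8 : U.card ≤ (places f g N q a r δ H').ncard := by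
      rw [← Set.ncard_coe_finset U]
      exact Set.ncard_le_ncard hsub (places_finite f g N q a r δ H')
    have h9 : (U.card : ℝ) ≤ (places f g N q a r δ H').ncard := by exact_mod_cast h8
    rw [div_le_iff₀ (by positivity)]
    nlinarith [pow_pos hlog B]

end Pool.Agent.Results.MP_3ec731_nt.PatternsAfterAlmostPrimes
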