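import Pool.Agent.U28.PG.Pos

set_option autoImplicit false

/-!
# A positive proportion of all patterns of consecutive primes in a positive proportion of all
# intervals of polylogarithmic length

The second moment of the number of Maynard-Tao tuples in short intervals. For an admissible set `S` of
`K` numbers the integers `n ≤ N` for which no `n + s` has a small prime factor are counted in pairs
`n`, `n + d`, `d ≤ (log N) ^ K`, by an upper bound sieve for the `2 K` numbers `n + s`, `n + d + s`,
on average over `d`; the lower bound is the Maynard-Tao theorem with roughness condition of the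
starting files (`Pool.Agent.H387R2.MB`), applied in those classes for which all other numbers near
`n` are composite.
-/

namespace Pool.Agent.Results.MP_3ec731_nt.PatternsInShortIntervals

open Finset Filter

/-- `S` is admissible: it occupies fewer than `p` residue classes modulo every prime `p` -/
def Admissible (S : Finset ℕ) : Prop := ∀ p : ℕ, p.Prime → (S.image (· % p)).card < p

/-- The primes among `n, n + 1, …, n + D` are exactly the numbers `n + b`, `b ∈ B`. -/
def PrimesAre (B : Finset ℕ) (D n : ℕ) : Prop := ∀ t ≤ D, ((n + t).Prime ↔ t ∈ B)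

open Classical in
/-- For EVERY `H` between `(log N) ^ K` and `N` at least `c N / H` of the intervals
`(j H, (j + 1) H]`, `0 ≤ j ≤ N / H`, contain at least `c H / (log N) ^ K` integers with the
property `P`. -/
def Spread (c : ℝ) (K N : ℕ) (P : ℕ → Prop) : Prop :=
  ∀ H : ℕ, Real.log N ^ K ≤ H → H ≤ N →
    c * ((N : ℝ) / H) ≤ (((range (N / H + 1)).filter (fun j => c * ((H : ℝ) / Real.log N ^ K) ≤
      (((Ioc (j * H) ((j + 1) * H)).filter P).card : ℝ))).card : ℝ)

open Classical in
/-- For every `k ≥ 1` there is `K` with the following two properties.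

(1) Let `S` be an admissible set of `K` numbers `≤ D`, `q` squarefree and `r` such that all `r + s`,
`s ∈ S`, are coprime to `q`. There is `c > 0` such that for all large `N` there is a subset `B` of `S`
with at least `k + 1` elements such that for every `H` between `(log N) ^ K` and `N` at least
`c N / H` of the intervals `(j H, (j + 1) H]` up to `N` contain at least `c H / (log N) ^ K` integers
`n ≡ r (mod q)` for which the primes among `n, …, n + D` are exactly the `n + b`, `b ∈ B`.

(2) Let `q` be squarefree and `r` coprime to `q`. There is `κ > 0` such that for all large `R` there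
is `c > 0` such that for all large `N` there are at least `κ R ^ k` sets `T` of `k + 1` multiples of
`q` in `[0, R]`, with `0 ∈ T`, such that for every `H` between `(log N) ^ K` and `N` at least
`c N / H` of the intervals `(j H, (j + 1) H]` up to `N` contain at least `c H / (log N) ^ K` integers
`n ≡ r (mod q)` which realise `T` as consecutive primes. -/
theorem result (k : ℕ) (hk : 1 ≤ k) : ∃ K : ℕ, k + 1 ≤ K ∧
    (∀ (S : Finset ℕ) (D q r : ℕ), S.card = K → (∀ s ∈ S, s ≤ D) → Admissible S → Squarefree q →
      (∀ s ∈ S, Nat.Coprime q (r + s)) →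
      ∃ c : ℝ, 0 < c ∧ ∀ᶠ N : ℕ in atTop, ∃ B ⊆ S, k + 1 ≤ B.card ∧
        Spread c K N (fun n => n ≡ r [MOD q] ∧ PrimesAre B D n)) ∧
    (∀ q r : ℕ, Squarefree q → Nat.Coprime q r →
      ∃ κ : ℝ, 0 < κ ∧ ∃ R0 : ℕ, ∀ R ≥ R0, ∃ c : ℝ, 0 < c ∧ ∀ᶠ N : ℕ in atTop,
        κ * (R : ℝ) ^ k ≤ (((range (R + 1)).powerset.filter (fun T : Finset ℕ =>
          0 ∈ T ∧ T.card = k + 1 ∧ (∀ h ∈ T, q ∣ h) ∧
          Spread c K N (fun n => n ≡ r [MOD q] ∧ PrimesAre T (T.sup id) n))).card : ℝ)) := by
  obtain ⟨K, hK, hmain⟩ := Pool.Agent.U28.PG.blocks' k hk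
  refine ⟨K, hK, ?_, ?_⟩
  · intro S D q r h1 h2 h3 h4 h5
    obtain ⟨c, hc, h6⟩ := hmain S D q r h1 h2 h3 h4 h5
    refine ⟨c, hc, ?_⟩
    filter_upwards [h6] with N hN
    obtain ⟨B, hB, hkB, hN⟩ := hN
    refine ⟨B, hB, hkB, ?_⟩
    have h7 := (hN 0 (Nat.zero_le _)).mono (le_refl c)
      (P' := fun n => n ≡ r [MOD q] ∧ PrimesAre B D n) (fun n hn => ⟨hn.2.1, hn.2.2⟩)
    exact h7
  · intro q r hsq hqr
    exact Pool.Agent.U28.PG.positive hK hmain q r hsq hqr

end Pool.Agent.Results.MP_3ec731_nt.PatternsInShortIntervals
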