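import Mathlib
import Pool.Agent.U288.SP.Fin2

/-!
# Consecutive primes in a positive proportion of the patterns made of shifted primes

Fix `k`, one of the two ends `v = 0` or `v = k` of `{0, ..., k}`, and `a, σ ∈ {0, 1, -1}`. Put on every pair `i < j`
containing `v` the condition that `h j - h i + σ` is a PRIME (no condition if `σ = 0`), on every other pair `i < j`
the condition that `h j - h i + a` is a PRIME (no condition if `a = 0`); let `e` be the number of conditions. There
are at most `C X ^ k / (log X) ^ e` vectors `0 = h 0 < h 1 < ... < h k ≤ X` satisfying all the conditions. The
theorem: for all large `X`, at least `c X ^ k / (log X) ^ e` of them, `c > 0`, so a positive proportion, are such that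
`N, N + h 1, ..., N + h k` are CONSECUTIVE primes for infinitely many `N`, also in every prescribed residue class
`N ≡ r (mod q)` prime to `q`.

Special cases.
* `v = 0`, `σ = 1`, `a = 0` (`e = k`): for a positive proportion of ALL `k`-element sets of primes
  `p_1 < ... < p_k ≤ X`, the numbers `N, N + p_1 - 1, ..., N + p_k - 1` are consecutive primes for infinitely many
  `N`; with `σ = -1` the same for `N, N + p_1 + 1, ..., N + p_k + 1`.
* `k = 1`: a positive proportion of the numbers `p - 1`, `p ≤ X` prime, and a positive proportion of the `p + 1`, are
  gaps between consecutive primes infinitely often.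
* `a = σ = 1` or `a = σ = -1` (`e = k (k + 1) / 2`): the vectors all of whose distances are shifted primes.
* `v = 0`, `σ = 0`, `a = 1`: all the distances, except those from the first prime, are shifted primes.
The known results (in the literature and in the starting files) give proportions of all the patterns, or of the
patterns contained in one set; the patterns considered here are a set of density zero, and they do not contain the
differences of the tuples of any one large set.

Proof. By the coloured Maynard-Tao theorem for consecutive primes (starting files: `Pool.Agent.H362R2.CM.quarter`,
`Pool.Agent.H732R3.HausQ.exact_Q`), whenever the points of an admissible set are put into `T` classes of `K = K(T)`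
elements, the primes in the set are, after infinitely many translations, the points of one and the same subset `P`
meeting a quarter of the classes, and there are no other primes in between. Take `T = m ^ 2`, arrange the classes in
`m` consecutive blocks of `m`, and impose the condition `a` on two points of the same block and `σ` on two points of
different blocks. One of the blocks contains `k` elements of `P` and is not the first (the last) one meeting `P`; its
first (last) `k` elements of `P` together with the last element of `P` before (the first one after) the block are
`k + 1` consecutive primes with the required conditions (`MT3.lean`, `MT4.lean`). There are at least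
`c X ^ D / (log X) ^ E` such configurations of `D = T K` points with `E` conditions, by adding one point after the
other and the asymptotic formula for almost all systems of linear forms (starting files, `LB1.lean`, `LB2.lean`); and
by the Selberg sieve for systems of linear forms (starting files), averaged over lines (`UB1.lean` - `UB3.lean`),
there are at most `C X ^ (2 D - k - 1) / (log X) ^ (2 E - e)` pairs of configurations which have the `k + 1` points in
common (`Asm1.lean`). The inequality of Cauchy and Schwarz gives the theorem (`Asm2.lean`, `Asm3.lean`).
-/

set_option autoImplicit false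

namespace Pool.Agent.Results.MP_3ec731_nt.ShiftedPrimeDistances

open Filter Finset

/-- the condition attached to the pair `i < j`: `σ` if the pair contains `v`, and `a` otherwise -/
def cond {k : ℕ} (v : Fin (k + 1)) (a σ : ℤ) (i j : Fin (k + 1)) : ℤ := if i = v ∨ j = v then σ else a

/-- the number `e` of the pairs `i < j` with a condition, `cond v a σ i j ≠ 0` -/
def conditions {k : ℕ} (v : Fin (k + 1)) (a σ : ℤ) : ℕ :=
  ((univ : Finset (Fin (k + 1) × Fin (k + 1))).filter (fun e => e.1 < e.2 ∧ cond v a σ e.1 e.2 ≠ 0)).card

open Classical in
/-- the vectors `0 = h 0 < h 1 < ... < h k ≤ X` such that `h j - h i + cond v a σ i j` is a prime for every pair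
`i < j` with a condition -/
noncomputable def shifts {k : ℕ} (v : Fin (k + 1)) (a σ : ℤ) (X : ℕ) : Finset (Fin (k + 1) → ℕ) :=
  (Fintype.piFinset (fun _ : Fin (k + 1) => range (X + 1))).filter (fun h => h 0 = 0 ∧ StrictMono h ∧
    ∀ i j, i < j → cond v a σ i j ≠ 0 → ((h j : ℤ) - h i + cond v a σ i j).toNat.Prime)

/-- for infinitely many natural numbers `N ≡ r (mod q)` the numbers `N + h 0 < ... < N + h k` are consecutive primes
(they are primes, and every prime between the first and the last of them is one of them) -/
def Consecutive {k : ℕ} (q r : ℕ) (h : Fin (k + 1) → ℕ) : Prop :=
  {N : ℕ | N ≡ r [MOD q] ∧ (∀ i, (N + h i).Prime) ∧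
    ∀ p : ℕ, p.Prime → N + h 0 ≤ p → p ≤ N + h (Fin.last k) → ∃ i, p = N + h i}.Infinite

open Classical in
/-- **Consecutive primes in a positive proportion of the patterns made of shifted primes.** -/
theorem result (k : ℕ) (v : Fin (k + 1)) (hv : v = 0 ∨ v = Fin.last k) (a σ : ℤ) (ha : a = 0 ∨ a = 1 ∨ a = -1)
    (hσ : σ = 0 ∨ σ = 1 ∨ σ = -1) (q : ℕ) (hq : 1 ≤ q) :
    ∃ c C : ℝ, 0 < c ∧ ∀ᶠ X : ℕ in atTop,
      ((shifts v a σ X).card : ℝ) ≤ C * ((X : ℝ) ^ k / Real.log X ^ conditions v a σ) ∧
      ∀ r : ℕ, r.Coprime q →
        c * ((X : ℝ) ^ k / Real.log X ^ conditions v a σ) ≤
          (((shifts v a σ X).filter (fun h => Consecutive q r h)).card : ℝ) :=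
  Pool.Agent.U288.SP.fin_consec k v hv a σ ha hσ q hq

end Pool.Agent.Results.MP_3ec731_nt.ShiftedPrimeDistances
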